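import Pool.Agent.Results.MP_8be4c0_mp.AllChannels
import Pool.Agent.Q218.ON.Gen

/-!
# The two point function dominates all non-singlet channels of the N-vector model

For every `N ≥ 1`, all ferromagnetic couplings on a torus `(ℤ/L)²` and every temperature, the
correlations of arbitrary bounded functions of the spins at two sites, and the effect of rotating
the spins of a set on the joint law with the spins of another set, are bounded, with explicit
constants, by the two point functions `⟨S_w · S_w'⟩` near these sites. Hence, for couplings of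
finite range, every exponential rate of the two point function is a rate for all these
correlations: the mass of the problem is the smallest mass of all non-singlet channels.
-/

set_option autoImplicit false

noncomputable section

namespace Pool.Agent.Results.MP_8be4c0_mp.VectorChannel

open MeasureTheory Pool.Agent.H5R2.ON Pool.Agent.H717R2.ON3
open Pool.Agent.H983R2.ONJ Pool.Agent.Q218.ON
open Pool.Agent.Results.MP_8be4c0_mp.AllChannels (rotate gibbsC Decay gibbs_eq)

/-- The coupling of the pair `{x, y}`. -/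
def pairC {L : ℕ} (c : Tor L × Tor L → ℝ) (x y : Tor L) : ℝ := c (x, y) + c (y, x)

/-- The two point function `⟨S_x · S_y⟩` of the couplings `c`. -/
def two (N : ℕ) {L : ℕ} [NeZero L] (c : Tor L × Tor L → ℝ) (x y : Tor L) : ℝ :=
  gibbsC (N := N) c fun S => inner ℝ (S x : EuclideanSpace ℝ (Fin N)) (S y)

open Classical in
/-- The bound: `2 N` for `x = y`, and otherwise, with `J_{xy}` the coupling of the pair,
`4 N J_{xy} + 8 ∑_{w, w'} J_{xw} J_{yw'} ⟨S_w · S_w'⟩`. -/
def bound (N : ℕ) {L : ℕ} [NeZero L] (c : Tor L × Tor L → ℝ) (x y : Tor L) : ℝ :=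
  if x = y then 2 * N else 4 * N * pairC c x y +
    8 * ∑ w : Tor L, ∑ w' : Tor L, pairC c x w * pairC c y w' * two N c w w'

/-- The two properties of the expectation `E` on the torus:
(1) for all `F`, `G` of modulus at most one which depend only on the spins in `X`, respectively
`Y`, and every orthogonal `Q`, the expectations of `F(Q S) G(S)` and `F(S) G(S)` differ by at most
`∑_{x ∈ X, y ∈ Y} B x y`;
(2) for all functions `f`, `g` on the sphere of modulus at most one, the expectation of
`f(S_x) g(S_y)` differs from the product of the means of `f` and `g` on the sphere by at most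
`B x y`. -/
def Dominated {N L : ℕ} [NeZero L] (E : (Conf N L → ℝ) → ℝ) (B : Tor L → Tor L → ℝ) : Prop :=
  (∀ (X Y : Finset (Tor L)) (F G : Conf N L → ℝ), Measurable F → Measurable G →
    (∀ S, |F S| ≤ 1) → (∀ S, |G S| ≤ 1) → DependsOn F (X : Set (Tor L)) →
    DependsOn G (Y : Set (Tor L)) →
    ∀ Q : EuclideanSpace ℝ (Fin N) ≃ₗᵢ[ℝ] EuclideanSpace ℝ (Fin N),
      |E (fun S => F (rotate Q S) * G S) - E (fun S => F S * G S)| ≤
        ∑ x ∈ X, ∑ y ∈ Y, B x y) ∧
  (∀ (x y : Tor L) (f g : Sph N → ℝ), Measurable f → Measurable g →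
    (∀ s, |f s| ≤ 1) → (∀ s, |g s| ≤ 1) →
      |E (fun S => f (S x) * g (S y)) - (∫ s, f s ∂(unif N)) * ∫ s, g s ∂(unif N)| ≤ B x y)

theorem corJ_indep {N L : ℕ} [NeZero L] (hN : N ≠ 0) (c : Tor L × Tor L → ℝ) (i j : Fin N)
    (x y : Tor L) : corJ c i x y = corJ c j x y := by
  have hZ := Aux269.Z_pos (N := N) hN c
  have hv : ‖(EuclideanSpace.single i (1 : ℝ) : EN N)‖ = 1 := by simp
  have h1 := two_dir hN c hv i x y
  have h2 := two_dir hN c hv j x y
  rw [h1] at h2
  exact mul_right_cancel₀ hZ.ne' h2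

theorem two_eq {N L : ℕ} [NeZero L] (hN : N ≠ 0) (c : Tor L × Tor L → ℝ) (i : Fin N)
    (x y : Tor L) : two N c x y = N * corJ c i x y := by
  have hcont : ∀ (i : Fin N) (z : Tor L), Continuous fun S : Conf N L => cc i (S z) := by
    intro i z
    unfold cc
    fun_prop
  have hint : ∀ i : Fin N, Integrable (fun S : Conf N L =>
      cc i (S x) * cc i (S y) * Real.exp (pS c S)) (prior N L) := fun i =>
    integrable_prior N L (((hcont i x).mul (hcont i y)).mul
      (Real.continuous_exp.comp (continuous_pS c)))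
  have heq : (∫ S : Conf N L, inner ℝ (S x : EuclideanSpace ℝ (Fin N)) (S y) *
      Real.exp (pS c S) ∂(prior N L)) / ∫ S : Conf N L, Real.exp (pS c S) ∂(prior N L) =
      ∑ i : Fin N, corJ c i x y := by
    unfold corJ
    rw [← Finset.sum_div, ← integral_finsetSum _ fun i _ => hint i]
    congr 1
    refine integral_congr_ae (Filter.Eventually.of_forall fun S => ?_)
    simp only
    rw [← Finset.sum_mul, PiLp.inner_apply]
    congr 1
    refine Finset.sum_congr rfl fun j _ => ?_
    simp only [RCLike.inner_apply, conj_trivial, cc]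
    ring
  have h2 : two N c x y = ∑ i : Fin N, corJ c i x y := heq
  rw [h2, Finset.sum_congr rfl fun j _ => corJ_indep hN c j i x y, Finset.sum_const,
    Finset.card_univ, Fintype.card_fin, nsmul_eq_mul]

theorem bound_eq {N L : ℕ} [NeZero L] (hN : N ≠ 0) (c : Tor L × Tor L → ℝ) (i : Fin N)
    (x y : Tor L) : bound N c x y = N * (2 * Th c i x y) := by
  unfold bound Th
  split_ifs
  · ring
  · have h1 : ∀ w w' : Tor L, pairC c x w * pairC c y w' * two N c w w' =
        (N : ℝ) / 4 * (kap c x w * kap c y w' * corJ c i w w') := by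
      intro w w'
      rw [two_eq hN c i]
      unfold kap pairC
      ring
    simp only [h1]
    simp only [← Finset.mul_sum]
    unfold kap pairC
    ring

theorem dominated {N L : ℕ} [NeZero L] (hN : N ≠ 0) {c : Tor L × Tor L → ℝ}
    (hc : ∀ x y, 0 ≤ c (x, y)) : Dominated (gibbsC (N := N) c) (bound N c) := by
  have hc' : ∀ e, 0 ≤ c e := fun e => hc e.1 e.2
  have i : Fin N := ⟨0, Nat.pos_of_ne_zero hN⟩
  refine ⟨fun X Y F G hF hG hF1 hG1 hFX hGY Q => ?_, fun x y f g hf hg hf1 hg1 => ?_⟩
  · have h := rot_gen hN hc' i X Y F G hF hG hF1 hG1 hFX hGY Q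
    have h2 : ∑ x ∈ X, ∑ y ∈ Y, bound N c x y = N * (2 * ∑ x ∈ X, ∑ y ∈ Y, Th c i x y) := by
      simp only [bound_eq hN c i, Finset.mul_sum]
    rw [h2]
    exact h
  · rw [bound_eq hN c i]
    exact two_gen hN hc' i x y hf hg hf1 hg1

/-- **The vector channel has the smallest mass.** Let `N ≥ 1`.

(1) For all couplings `c ≥ 0` on a torus the Gibbs state is dominated by `bound`.

(2) For the couplings `J` of the problem which have a finite range, every `β > 0` and all `C`, `m`
there is a `K` such that on all tori on which `⟨S_x · S_y⟩ ≤ C exp (-m |x - y|)` for all sites, all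
non-singlet correlations decay with the same rate: `Decay` holds with the constants `K` and `m`. -/
theorem result (N : ℕ) (hN : 1 ≤ N) :
    (∀ (L : ℕ) [NeZero L] (c : Tor L × Tor L → ℝ), (∀ x y, 0 ≤ c (x, y)) →
      Dominated (gibbsC (N := N) c) (bound N c)) ∧
    (∀ J : ℤ × ℤ → ℝ, Admissible J → (∃ r : ℝ, ∀ z, r < znorm z → J z = 0) →
      ∀ β : ℝ, 0 < β → ∀ C m : ℝ, 0 ≤ C → 0 ≤ m → ∃ K : ℝ, 0 < K ∧
        ∀ (L : ℕ) [NeZero L],
          (∀ x y : Tor L, corr N L J β x y ≤ C * Real.exp (-m * tnorm (x - y))) →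
          Decay (gibbs (N := N) L J β) K m) := by
  have hN0 : N ≠ 0 := by omega
  refine ⟨fun L _ c hc => dominated hN0 hc, ?_⟩
  intro J hJ hr β hβ C m hC hm
  obtain ⟨r, hr⟩ := hr
  obtain ⟨A, a, ha, hJd⟩ := hJ.decay
  have hA0 : 0 ≤ A := by
    have h1 := hJd 0
    have h2 : znorm (0 : ℤ × ℤ) = 0 := by simp [znorm]
    rw [h2, mul_zero, Real.exp_zero, mul_one] at h1
    exact (abs_nonneg _).trans h1
  -- a larger rate
  have hJd2 : ∀ z, |J z| ≤ A * Real.exp (2 * (m + 1) * r) *
      Real.exp (-(2 * (m + 1)) * znorm z) := by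
    intro z
    by_cases hz : r < znorm z
    · rw [hr z hz, abs_zero]
      positivity
    · push Not at hz
      have hz0 : 0 ≤ znorm z := Real.sqrt_nonneg _
      refine (hJd z).trans ?_
      rw [mul_assoc, ← Real.exp_add]
      refine mul_le_mul_of_nonneg_left (Real.exp_le_exp.2 ?_) hA0
      nlinarith
  obtain ⟨A', hA', hper⟩ := Jper_le (a := 2 * (m + 1)) (by positivity) hJd2
  obtain ⟨K, hK, hTh⟩ := Th_rate (β * A') (m + 1) C m (by positivity) hC hm (by linarith)
  have i : Fin N := ⟨0, Nat.pos_of_ne_zero hN0⟩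
  refine ⟨N * (2 * K), by positivity, ?_⟩
  intro L _ hcorr
  have hcE : ExpC (β * A') (m + 1) (MassGap.cJ L J β) := by
    intro e
    unfold MassGap.cJ
    split_ifs with hxy
    · exact ⟨le_rfl, mul_nonneg (by positivity) (Real.exp_pos _).le⟩
    · refine ⟨mul_nonneg hβ.le (Jper_nonneg hJ.nonneg (sub_ne_zero.2 hxy)), ?_⟩
      rw [mul_assoc, tnorm_sub_comm]
      refine mul_le_mul_of_nonneg_left ((hper L _).trans (le_of_eq ?_)) hβ.le
      congr 2
      ring
  have hc0 : ∀ e, 0 ≤ MassGap.cJ L J β e := fun e => (hcE e).1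
  have hcor : ∀ x y : Tor L, corJ (MassGap.cJ L J β) i x y ≤
      C * Real.exp (-m * tnorm (x - y)) := by
    intro x y
    refine le_trans ?_ (hcorr x y)
    have h1 : corr N L J β x y = two N (MassGap.cJ L J β) x y := by
      unfold corr two
      rw [gibbs_eq]
    rw [h1, two_eq hN0 _ i]
    have h2 := corJ_nonneg hN0 hc0 i x y
    have h3 : (1 : ℝ) ≤ N := by exact_mod_cast hN
    nlinarith
  have hT := hTh N L (MassGap.cJ L J β) hN0 hcE i hcor
  have hdom := dominated (N := N) hN0 (c := MassGap.cJ L J β) fun x y => hc0 (x, y)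
  have hb : ∀ x y : Tor L, bound N (MassGap.cJ L J β) x y ≤
      N * (2 * K) * Real.exp (-m * tnorm (x - y)) := by
    intro x y
    rw [bound_eq hN0 _ i]
    have h3 : (0 : ℝ) ≤ N := Nat.cast_nonneg N
    calc (N : ℝ) * (2 * Th (MassGap.cJ L J β) i x y)
        ≤ N * (2 * (K * Real.exp (-m * tnorm (x - y)))) :=
          mul_le_mul_of_nonneg_left (mul_le_mul_of_nonneg_left (hT x y) (by norm_num)) h3
      _ = _ := by ring
  have h2 : (gibbs (N := N) L J β) = gibbsC (MassGap.cJ L J β) :=
    funext fun F => gibbs_eq L J β F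
  rw [h2]
  refine ⟨fun X Y F G hF hG hF1 hG1 hFX hGY Q =>
    (hdom.1 X Y F G hF hG hF1 hG1 hFX hGY Q).trans ?_, fun x y f g hf hg hf1 hg1 =>
    (hdom.2 x y f g hf hg hf1 hg1).trans (hb x y)⟩
  rw [Finset.mul_sum]
  refine Finset.sum_le_sum fun x _ => ?_
  rw [Finset.mul_sum]
  exact Finset.sum_le_sum fun y _ => hb x y

end Pool.Agent.Results.MP_8be4c0_mp.VectorChannel
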