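import Pool.Agent.Results.MP_8be4c0_mp.MassGap
import Pool.Agent.Q218.ON.Haar

/-!
# Mass gap of the two-dimensional N-vector models, N ≥ 3, in all non-singlet channels

The spins at different sites of the two-dimensional `N`-vector model with `N ≥ 3` become
independent exponentially fast, at every temperature: the correlations of ARBITRARY bounded
functions of two spins decay exponentially, and rotating all the spins of a set `X` by any
orthogonal transformation changes the joint expectation with the spins of a set `Y` by at most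
`C ∑_{x ∈ X, y ∈ Y} exp (-m |x - y|)`. The couplings may be arbitrary, without any symmetry, as
long as they are ferromagnetic and decay exponentially.

The starting library proves the exponential decay of `⟨S_x · S_y⟩` (`MassGap`). The proof here
bounds, for the reflection in every direction `v`, the connection probabilities of the
Edwards-Sokal clusters of the signs of `v · S` by these two point functions (the first and the
last edge of a connecting path absorb the moduli `|v · S_x|`), flips the clusters of `X`, writes an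
orthogonal transformation as a product of at most `N` reflections and averages over the orthogonal
group.
-/

set_option autoImplicit false

noncomputable section

namespace Pool.Agent.Results.MP_8be4c0_mp.AllChannels

open MeasureTheory Filter Topology Pool.Agent.H5R2.ON Pool.Agent.H717R2.ON3
open Pool.Agent.H983R2.ONJ Pool.Agent.Q218.ON

/-- The configuration `S` with all spins transformed by the orthogonal transformation `Q`. -/
def rotate {N L : ℕ} (Q : EuclideanSpace ℝ (Fin N) ≃ₗᵢ[ℝ] EuclideanSpace ℝ (Fin N))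
    (S : Conf N L) : Conf N L := fun x => ⟨Q (S x), by simp⟩

/-- The expectation of `F` in the Gibbs state on the torus `(ℤ/L)²` with density proportional to
`exp (∑_{x, y} c (x, y) S_x · S_y)`. -/
def gibbsC {N L : ℕ} [NeZero L] (c : Tor L × Tor L → ℝ) (F : Conf N L → ℝ) : ℝ :=
  (∫ S, F S * Real.exp (∑ e, c e * inner ℝ (S e.1 : EuclideanSpace ℝ (Fin N)) (S e.2))
      ∂(prior N L)) /
    ∫ S : Conf N L, Real.exp (∑ e, c e * inner ℝ (S e.1 : EuclideanSpace ℝ (Fin N)) (S e.2))
      ∂(prior N L)

/-- The two properties of the expectation `E` on the torus: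
(1) for all `F`, `G` of modulus at most one which depend only on the spins in `X`, respectively
`Y`, and every orthogonal `Q`, the expectations of `F(Q S) G(S)` and `F(S) G(S)` differ by at most
`C ∑_{x ∈ X, y ∈ Y} exp (-m |x - y|)`;
(2) for all functions `f`, `g` on the sphere of modulus at most one, the expectation of
`f(S_x) g(S_y)` differs from the product of the means of `f` and `g` on the sphere by at most
`C exp (-m |x - y|)`. -/
def Decay {N L : ℕ} [NeZero L] (E : (Conf N L → ℝ) → ℝ) (C m : ℝ) : Prop :=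
  (∀ (X Y : Finset (Tor L)) (F G : Conf N L → ℝ), Measurable F → Measurable G →
    (∀ S, |F S| ≤ 1) → (∀ S, |G S| ≤ 1) → DependsOn F (X : Set (Tor L)) →
    DependsOn G (Y : Set (Tor L)) →
    ∀ Q : EuclideanSpace ℝ (Fin N) ≃ₗᵢ[ℝ] EuclideanSpace ℝ (Fin N),
      |E (fun S => F (rotate Q S) * G S) - E (fun S => F S * G S)| ≤
        C * ∑ x ∈ X, ∑ y ∈ Y, Real.exp (-m * tnorm (x - y))) ∧
  (∀ (x y : Tor L) (f g : Sph N → ℝ), Measurable f → Measurable g →
    (∀ s, |f s| ≤ 1) → (∀ s, |g s| ≤ 1) →
      |E (fun S => f (S x) * g (S y)) - (∫ s, f s ∂(unif N)) * ∫ s, g s ∂(unif N)| ≤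
        C * Real.exp (-m * tnorm (x - y)))

theorem decay_mono {N L : ℕ} [NeZero L] {E : (Conf N L → ℝ) → ℝ} {C C' m m' : ℝ}
    (hC0 : 0 ≤ C) (hC : C ≤ C') (hm : m' ≤ m) (h : Decay E C m) : Decay E C' m' := by
  have hexp : ∀ z : Tor L, Real.exp (-m * tnorm z) ≤ Real.exp (-m' * tnorm z) := by
    intro z
    refine Real.exp_le_exp.2 ?_
    have := tnorm_nonneg z
    nlinarith
  refine ⟨fun X Y F G hF hG hF1 hG1 hFX hGY Q =>
    (h.1 X Y F G hF hG hF1 hG1 hFX hGY Q).trans ?_, fun x y f g hf hg hf1 hg1 =>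
    (h.2 x y f g hf hg hf1 hg1).trans ?_⟩
  · refine mul_le_mul hC (Finset.sum_le_sum fun x _ => Finset.sum_le_sum fun y _ => hexp _)
      (Finset.sum_nonneg fun _ _ => Finset.sum_nonneg fun _ _ => (Real.exp_pos _).le)
      (hC0.trans hC)
  · exact mul_le_mul hC (hexp _) (Real.exp_pos _).le (hC0.trans hC)

theorem gibbs_eq {N : ℕ} (L : ℕ) [NeZero L] (J : ℤ × ℤ → ℝ) (β : ℝ) (F : Conf N L → ℝ) :
    gibbs L J β F = gibbsC (MassGap.cJ L J β) F := by
  unfold gibbs gibbsC
  set κ : ℝ := ∑ _x : Tor L, β * Jper L J 0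
  have h0 : ∀ S : Conf N L, Real.exp (β * enJ L J S) =
      Real.exp (∑ e, MassGap.cJ L J β e *
        inner ℝ (S e.1 : EuclideanSpace ℝ (Fin N)) (S e.2)) * Real.exp κ := by
    intro S
    rw [MassGap.en_eq, Real.exp_add]
    rfl
  simp only [h0]
  have h1 : (fun S : Conf N L => F S *
      (Real.exp (∑ e, MassGap.cJ L J β e *
        inner ℝ (S e.1 : EuclideanSpace ℝ (Fin N)) (S e.2)) * Real.exp κ)) = fun S : Conf N L =>
      (F S * Real.exp (∑ e, MassGap.cJ L J β e *
        inner ℝ (S e.1 : EuclideanSpace ℝ (Fin N)) (S e.2))) * Real.exp κ := by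
    funext S; ring
  rw [h1, integral_mul_const, integral_mul_const,
    mul_div_mul_right _ _ (Real.exp_pos _).ne']

theorem inhom (N : ℕ) (hN : 3 ≤ N) (A a : ℝ) (hA : 0 ≤ A) (ha : 0 < a) :
    ∃ C m : ℝ, 0 < C ∧ 0 < m ∧ ∀ (L : ℕ) [NeZero L] (c : Tor L × Tor L → ℝ),
      (∀ x y, 0 ≤ c (x, y) ∧ c (x, y) ≤ A * Real.exp (-a * tnorm (y - x))) →
      Decay (gibbsC (N := N) c) C m := by
  obtain ⟨C, m, hC, hm, h⟩ := twoAll N hN A a hA ha
  refine ⟨C, m, hC, hm, fun L _ c hc => ?_⟩
  have hcE : ExpC A a c := fun e => hc e.1 e.2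
  exact h L c hcE

/-- **Mass gap in all non-singlet channels.** Let `N ≥ 3`.

(1) For all `A ≥ 0` and `a > 0` there are `C, m > 0` such that for all tori and all couplings
`0 ≤ c (x, y) ≤ A exp (-a |x - y|)`, without any symmetry, the Gibbs state satisfies `Decay`.

(2) For every ferromagnetic, exponentially decaying coupling `J` on `ℤ²` and every `β > 0` there
are `C, m > 0` such that the Gibbs states on all tori satisfy `Decay`, every infinite volume limit
`G(x)` of the two point functions `⟨S_0 · S_x⟩` is at most `C exp (-m |x|)` and summable, and its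
mass is at least `m`. -/
theorem result (N : ℕ) (hN : 3 ≤ N) :
    (∀ A a : ℝ, 0 ≤ A → 0 < a → ∃ C m : ℝ, 0 < C ∧ 0 < m ∧
      ∀ (L : ℕ) [NeZero L] (c : Tor L × Tor L → ℝ),
        (∀ x y, 0 ≤ c (x, y) ∧ c (x, y) ≤ A * Real.exp (-a * tnorm (y - x))) →
        Decay (gibbsC (N := N) c) C m) ∧
    (∀ J : ℤ × ℤ → ℝ, Admissible J → ∀ β : ℝ, 0 < β → ∃ C m : ℝ, 0 < C ∧ 0 < m ∧
      (∀ (L : ℕ) [NeZero L], Decay (gibbs (N := N) L J β) C m) ∧
      ∀ G : ℤ × ℤ → ℝ, IsLimitCorr N J β G →
        (∀ x, |G x| ≤ C * Real.exp (-m * znorm x)) ∧ Summable G ∧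
        ∀ μ : ℝ, (∀ n : ℕ, 0 < G (n, 0)) →
          Tendsto (fun n : ℕ => -(1 / (n : ℝ)) * Real.log (G (n, 0))) atTop (𝓝 μ) → m ≤ μ) := by
  refine ⟨fun A a hA ha => inhom N hN A a hA ha, ?_⟩
  intro J hJ β hβ
  obtain ⟨A, a, ha, hJd⟩ := hJ.decay
  obtain ⟨A', hA', hper⟩ := Jper_le ha hJd
  obtain ⟨C, m, hC, hm, h⟩ := inhom N hN (β * A') (a / 2) (by positivity) (by linarith)
  obtain ⟨C', m', hC', hm', -, h'⟩ := MassGap.result N hN J hJ β hβ
  refine ⟨C + C', min m m', by positivity, lt_min hm hm', ?_, ?_⟩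
  · intro L _
    have h1 : Decay (gibbs (N := N) L J β) C m := by
      have h2 : (gibbs (N := N) L J β) = gibbsC (MassGap.cJ L J β) :=
        funext fun F => gibbs_eq L J β F
      rw [h2]
      refine h L _ fun x y => ?_
      unfold MassGap.cJ
      simp only
      split_ifs with hxy
      · exact ⟨le_rfl, mul_nonneg (by positivity) (Real.exp_pos _).le⟩
      · refine ⟨mul_nonneg hβ.le (Jper_nonneg hJ.nonneg (sub_ne_zero.2 hxy)), ?_⟩
        rw [mul_assoc, tnorm_sub_comm]
        exact mul_le_mul_of_nonneg_left (hper L _) hβ.le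
    exact decay_mono hC.le (by linarith) (min_le_left _ _) h1
  · intro G hG
    obtain ⟨g1, g2, g3⟩ := h' G hG
    refine ⟨fun x => (g1 x).trans ?_, g2, fun μ hpos hμ => (min_le_right _ _).trans
      (g3 μ hpos hμ)⟩
    have hz : 0 ≤ znorm x := Real.sqrt_nonneg _
    refine mul_le_mul (by linarith) (Real.exp_le_exp.2 ?_) (Real.exp_pos _).le (by positivity)
    have := min_le_right m m'
    nlinarith

end Pool.Agent.Results.MP_8be4c0_mp.AllChannels
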