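import Pool.Agent.Results.MP_8be4c0_mp.VectorChannel
import Pool.Agent.Q218.ON.WirePt

/-!
# Exponential relaxation with constant boundary conditions, N ≥ 3

For the two-dimensional `N`-vector model with `N ≥ 3`, at every temperature and for arbitrary
ferromagnetic, exponentially decaying couplings without any symmetry, let all spins outside a set
`Λ` be frozen in one direction `e`. Then the magnetisation `⟨S_x · e⟩` is nonnegative and decays
exponentially in the distance of `x` from the complement of `Λ`; more generally the expectation of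
every bounded function of one spin converges exponentially fast to its mean on the sphere, and
every bounded local observable becomes invariant under rotations exponentially fast. The constants
do not depend on `Λ`.

The starting library (`corJ_decay`, `MassGap`) treats the model without frozen spins, and, with
frozen spins, proves a polynomial bound for the magnetisation (`MBJ_decay`), which is used here.
-/

set_option autoImplicit false

noncomputable section

namespace Pool.Agent.Results.MP_8be4c0_mp.BoundaryDecay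

open MeasureTheory Pool.Agent.H5R2.ON Pool.Agent.H717R2.ON3
open Pool.Agent.H983R2.ONJ Pool.Agent.Q218.ON Pool.Agent.H983R2
open Pool.Agent.Results.MP_8be4c0_mp.AllChannels (rotate)

open Classical in
/-- The configuration which is `S` on `Λ` and `e` outside. -/
def freeze {N L : ℕ} (Λ : Finset (Tor L)) (e : Sph N) (S : Conf N L) : Conf N L :=
  fun x => if x ∈ Λ then S x else e

/-- The expectation of `F` in the Gibbs state in `Λ` with the couplings `c` and the constant
boundary condition `e`: all spins outside `Λ` are equal to `e`. -/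
def gibbsE {N L : ℕ} [NeZero L] (c : Tor L × Tor L → ℝ) (Λ : Finset (Tor L)) (e : Sph N)
    (F : Conf N L → ℝ) : ℝ :=
  (∫ S, F (freeze Λ e S) * Real.exp (∑ q : Tor L × Tor L, c q *
      inner ℝ (freeze Λ e S q.1 : EuclideanSpace ℝ (Fin N)) (freeze Λ e S q.2)) ∂(prior N L)) /
    ∫ S, Real.exp (∑ q : Tor L × Tor L, c q *
      inner ℝ (freeze Λ e S q.1 : EuclideanSpace ℝ (Fin N)) (freeze Λ e S q.2)) ∂(prior N L)

theorem freeze_eq {N L : ℕ} (Λ : Finset (Tor L)) (e : Sph N) (S : Conf N L) :
    freeze Λ e S = splice Λ S fun _ => e := by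
  funext x
  unfold freeze splice
  by_cases hx : x ∈ Λ
  · rw [if_pos hx]
  · rw [if_neg hx]

theorem gibbsE_eq {N L : ℕ} [NeZero L] (c : Tor L × Tor L → ℝ) (Λ : Finset (Tor L))
    (e : Sph N) (F : Conf N L → ℝ) : gibbsE c Λ e F = gH (pS c) Λ (fun _ => e) F := by
  unfold gibbsE gH pS
  simp only [freeze_eq]

theorem gibbsE_loc {N L : ℕ} [NeZero L] (c : Tor L × Tor L → ℝ) (Λ : Finset (Tor L))
    (e : Sph N) {F : Conf N L → ℝ} (hF : DependsOn F (Λ : Set (Tor L))) :
    gibbsE c Λ e F = PF Λ c F e / PF Λ c (fun _ : Conf N L => 1) e := by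
  rw [gibbsE_eq]
  unfold gH PF
  have h : ∀ S : Conf N L, F (splice Λ S fun _ => e) = F S := by
    intro S
    refine hF fun x hx => ?_
    have hx' : x ∈ Λ := hx
    unfold splice
    rw [if_pos hx']
  simp only [h, one_mul]

theorem PF1_pos {N L : ℕ} [NeZero L] (hN : N ≠ 0) (c : Tor L × Tor L → ℝ)
    (Λ : Finset (Tor L)) (e : Sph N) : 0 < PF Λ c (fun _ : Conf N L => 1) e := by
  haveI := prior_isProbabilityMeasure N L hN
  unfold PF
  simp only [one_mul]
  exact integral_exp_pos (integrable_prior N L (Real.continuous_exp.comp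
    ((continuous_pS c).comp (gib2_continuous_splice Λ _))))

/-- **Exponential relaxation with constant boundary conditions.** Let `N ≥ 3`. For all `A ≥ 0`
and `a > 0` there are `C, m > 0` such that for all couplings `0 ≤ c (x, y) ≤ A exp (-a |x - y|)`
on all tori, all sets `Λ` of sites which are not everything, all unit vectors `e` and every
function `r` such that `|x - y| ≥ r x` for all sites `x` of `Λ` and `y` outside `Λ`:
(1) `0 ≤ ⟨S_x · e⟩ ≤ C exp (-m r x)` for all `x ∈ Λ`;
(2) the mean of `f (S_x)` differs from the mean of `f` on the sphere by at most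
`C exp (-m r x)`, for all `x ∈ Λ` and all measurable `|f| ≤ 1`;
(3) the expectations of `F (Q S)` and `F (S)` differ by at most `C ∑_{x ∈ X} exp (-m r x)` for all
measurable `|F| ≤ 1` which depend only on the spins in `X ⊆ Λ`, and all orthogonal `Q`. -/
theorem result (N : ℕ) (hN : 3 ≤ N) (A a : ℝ) (hA : 0 ≤ A) (ha : 0 < a) :
    ∃ C m : ℝ, 0 < C ∧ 0 < m ∧ ∀ (L : ℕ) [NeZero L] (c : Tor L × Tor L → ℝ),
      (∀ x y, 0 ≤ c (x, y) ∧ c (x, y) ≤ A * Real.exp (-a * tnorm (y - x))) →
      ∀ (Λ : Finset (Tor L)), Λ ≠ Finset.univ → ∀ (e : Sph N) (r : Tor L → ℝ),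
        (∀ x ∈ Λ, ∀ y, y ∉ Λ → r x ≤ tnorm (x - y)) →
        (∀ x ∈ Λ, 0 ≤ gibbsE c Λ e (fun S => inner ℝ (S x : EuclideanSpace ℝ (Fin N)) e) ∧
          gibbsE c Λ e (fun S => inner ℝ (S x : EuclideanSpace ℝ (Fin N)) e) ≤
            C * Real.exp (-m * r x)) ∧
        (∀ x ∈ Λ, ∀ f : Sph N → ℝ, Measurable f → (∀ s, |f s| ≤ 1) →
          |gibbsE c Λ e (fun S => f (S x)) - ∫ s, f s ∂(unif N)| ≤ C * Real.exp (-m * r x)) ∧
        (∀ X : Finset (Tor L), X ⊆ Λ → ∀ F : Conf N L → ℝ, Measurable F → (∀ S, |F S| ≤ 1) →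
          DependsOn F (X : Set (Tor L)) →
          ∀ Q : EuclideanSpace ℝ (Fin N) ≃ₗᵢ[ℝ] EuclideanSpace ℝ (Fin N),
            |gibbsE c Λ e (fun S => F (rotate Q S)) - gibbsE c Λ e F| ≤
              C * ∑ x ∈ X, Real.exp (-m * r x)) := by
  obtain ⟨C, m, hC, hm1, h⟩ := wire_decay N hN A a hA ha
  obtain ⟨C', m', hC', hm', h'⟩ := eps_decay N hN A a hA ha
  have hN0 : N ≠ 0 := by omega
  have hNR : (1 : ℝ) ≤ N := by exact_mod_cast (by omega : 1 ≤ N)
  refine ⟨N * C + N * (2 * C'), min m m', by positivity, lt_min hm1 hm', ?_⟩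
  intro L _ c hc Λ hΛ e r0 hr0
  have hcE : ExpC A a c := fun q => hc q.1 q.2
  have hc0 : ∀ q, 0 ≤ c q := fun q => (hcE q).1
  obtain ⟨b, hb⟩ : ∃ b, b ∉ Λ := by
    by_contra hcon
    push Not at hcon
    exact hΛ (Finset.eq_univ_iff_forall.2 hcon)
  have i : Fin N := ⟨0, Nat.pos_of_ne_zero hN0⟩
  have hm0 : 0 ≤ min m m' := (lt_min hm1 hm').le
  -- exponentials
  have hex : ∀ x ∈ Λ, ∀ m1 : ℝ, 0 ≤ m1 → min m m' ≤ m1 →
      Real.exp (-m1 * dl Λ b hb x) ≤ Real.exp (-(min m m') * r0 x) := by
    intro x hx m1 hm1 hmm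
    refine Real.exp_le_exp.2 ?_
    have h1 := le_dl hb x (hr0 x hx)
    have h2 := dl_nonneg hb x
    have h3 : min m m' * r0 x ≤ min m m' * dl Λ b hb x := mul_le_mul_of_nonneg_left h1 hm0
    have h4 : min m m' * dl Λ b hb x ≤ m1 * dl Λ b hb x := mul_le_mul_of_nonneg_right hmm h2
    linarith
  have hP1 := PF1_pos hN0 c Λ e
  -- (3) in terms of eps
  have hloc : ∀ X : Finset (Tor L), X ⊆ Λ → ∀ F : Conf N L → ℝ, Measurable F →
      (∀ S, |F S| ≤ 1) → DependsOn F (X : Set (Tor L)) → ∀ Q : EN N ≃ₗᵢ[ℝ] EN N,
      |gibbsE c Λ e (fun S => F (rotC Q S)) - gibbsE c Λ e F| ≤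
        (N * C + N * (2 * C')) * ∑ x ∈ X, Real.exp (-(min m m') * r0 x) := by
    intro X hX F hF hF1 hFX Q
    have hFΛ : DependsOn F (Λ : Set (Tor L)) := fun S S' hS => hFX fun x hx => hS x (hX hx)
    have hFΛ' : DependsOn (fun S => F (rotC Q S)) (Λ : Set (Tor L)) := fun S S' hS => by
      refine hFX fun x hx => ?_
      unfold rotC
      rw [hS x (hX hx)]
    rw [gibbsE_loc c Λ e hFΛ, gibbsE_loc c Λ e hFΛ', ← sub_div, abs_div, abs_of_pos hP1,
      div_le_iff₀ hP1]
    refine (pt_bound hN0 hc0 hb i hX hF hF1 hFX Q e).trans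
      (mul_le_mul_of_nonneg_right ?_ hP1.le)
    have h1 : ∑ x ∈ X, eps N Λ b c i x ≤ C' * ∑ x ∈ X, Real.exp (-(min m m') * r0 x) := by
      rw [Finset.mul_sum]
      refine Finset.sum_le_sum fun x hx => ?_
      exact (h' L c hcE i Λ b hb x).trans (mul_le_mul_of_nonneg_left
        (hex x (hX hx) m' hm'.le (min_le_right _ _)) hC'.le)
    have h2 : 0 ≤ ∑ x ∈ X, Real.exp (-(min m m') * r0 x) :=
      Finset.sum_nonneg fun x _ => (Real.exp_pos _).le
    have h3 : 0 ≤ N * C * ∑ x ∈ X, Real.exp (-(min m m') * r0 x) := by positivity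
    nlinarith
  refine ⟨fun x hx => ?_, fun x hx f hf hf1 => ?_, hloc⟩
  · have h1 : gibbsE c Λ e (fun S => inner ℝ (S x : EuclideanSpace ℝ (Fin N)) e) =
        N * corJ (wire Λ b c) i x b := by
      rw [gibbsE_eq, bc_eq hN0 hb hx e]
      exact VectorChannel.two_eq hN0 (wire Λ b c) i x b
    rw [h1]
    have h2 := corJ_nonneg hN0 (wire_nonneg (Λ := Λ) (b := b) hc0) i x b
    have h3 := h L c hcE i Λ b hb x
    unfold uu at h3
    rw [if_pos hx] at h3
    have h5 := hex x hx m hm1.le (min_le_left _ _)
    have h6 : (0 : ℝ) ≤ N := Nat.cast_nonneg N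
    refine ⟨mul_nonneg h6 h2, ?_⟩
    have h7 : N * corJ (wire Λ b c) i x b ≤ N * (C * Real.exp (-(min m m') * r0 x)) :=
      mul_le_mul_of_nonneg_left (h3.trans (mul_le_mul_of_nonneg_left h5 hC.le)) h6
    have h8 : 0 ≤ N * (2 * C') * Real.exp (-(min m m') * r0 x) := by positivity
    nlinarith
  · -- averaging over the orthogonal group
    haveI := hm_prob N
    haveI := prior_isProbabilityMeasure N L hN0
    have hfm : Measurable fun S : Conf N L => f (S x) := hf.comp (measurable_pi_apply x)
    have hxX : ({x} : Finset (Tor L)) ⊆ Λ := Finset.singleton_subset_iff.2 hx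
    have hdep : DependsOn (fun S : Conf N L => f (S x)) (({x} : Finset (Tor L)) :
        Set (Tor L)) := fun S S' hS => by
      have := hS x (by simp)
      simp only [this]
    have hdepΛ : DependsOn (fun S : Conf N L => f (S x)) (Λ : Set (Tor L)) :=
      fun S S' hS => by
        have := hS x hx
        simp only [this]
    have hrot : ∀ U : OG N, |gibbsE c Λ e (fun S : Conf N L => f (act U (S x))) -
        gibbsE c Λ e (fun S : Conf N L => f (S x))| ≤
        (N * C + N * (2 * C')) * Real.exp (-(min m m') * r0 x) := by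
      intro U
      have h1 := hloc {x} hxX (fun S => f (S x)) hfm (fun S => hf1 _) hdep
        (Unitary.linearIsometryEquiv U⁻¹)
      rw [Finset.sum_singleton] at h1
      exact h1
    have hcont : Continuous fun S : Conf N L => Real.exp (pS c (splice Λ S fun _ => e)) :=
      Real.continuous_exp.comp ((continuous_pS c).comp (gib2_continuous_splice Λ _))
    obtain ⟨B, hB⟩ := Aux269.bdd_of_continuous hcont
    have hE : ∀ U : OG N, gibbsE c Λ e (fun S : Conf N L => f (act U (S x))) =
        (∫ S : Conf N L, f (act U (S x)) * Real.exp (pS c (splice Λ S fun _ => e))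
          ∂(prior N L)) / PF Λ c (fun _ : Conf N L => 1) e := by
      intro U
      rw [gibbsE_loc c Λ e (fun S S' hS => by
        have := hS x hx
        simp only [this])]
      rfl
    have havg : ∫ U, gibbsE c Λ e (fun S : Conf N L => f (act U (S x))) ∂(hm N) =
        ∫ s, f s ∂(unif N) := by
      simp only [hE]
      rw [integral_div, avg_one hN0 hf hf1 x hcont.measurable hB, mul_div_assoc]
      have h1 : ∫ S : Conf N L, Real.exp (pS c (splice Λ S fun _ => e)) ∂(prior N L) =
          PF Λ c (fun _ : Conf N L => 1) e := by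
        unfold PF
        simp only [one_mul]
      rw [h1, div_self hP1.ne', mul_one]
    have hmeas : Integrable (fun U => gibbsE c Λ e (fun S : Conf N L => f (act U (S x))))
        (hm N) := by
      simp only [hE]
      have hint : Integrable (Function.uncurry fun (U : OG N) (S : Conf N L) =>
          f (act U (S x)) * Real.exp (pS c (splice Λ S fun _ => e)))
          ((hm N).prod (prior N L)) := by
        refine Integrable.of_bound (C := 1 * B) ?_ (Filter.Eventually.of_forall fun p => ?_)
        · have h3 : Measurable fun p : OG N × Conf N L => act p.1 (p.2 x) :=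
            (continuous_act.comp (continuous_fst.prodMk
              ((continuous_apply x).comp continuous_snd))).measurable
          exact ((hf.comp h3).mul (hcont.measurable.comp measurable_snd)).aestronglyMeasurable
        · rw [Real.norm_eq_abs]
          simp only [Function.uncurry]
          rw [abs_mul]
          exact mul_le_mul (hf1 _) (hB _) (abs_nonneg _) zero_le_one
      exact hint.integral_prod_left.div_const _
    rw [← havg]
    have h5 : gibbsE c Λ e (fun S : Conf N L => f (S x)) =
        ∫ _U : OG N, gibbsE c Λ e (fun S : Conf N L => f (S x)) ∂(hm N) := by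
      simp
    rw [h5, ← integral_sub (integrable_const _) hmeas]
    refine (abs_integral_le_integral_abs).trans ?_
    have h6 : ∫ U, |gibbsE c Λ e (fun S : Conf N L => f (S x)) -
        gibbsE c Λ e (fun S : Conf N L => f (act U (S x)))| ∂(hm N) ≤
        ∫ _U : OG N, (N * C + N * (2 * C')) * Real.exp (-(min m m') * r0 x) ∂(hm N) := by
      refine integral_mono ((integrable_const _).sub hmeas).abs (integrable_const _) fun U => ?_
      simp only
      rw [abs_sub_comm]
      exact hrot U
    refine h6.trans (le_of_eq ?_)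
    simp

end Pool.Agent.Results.MP_8be4c0_mp.BoundaryDecay
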